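import Pool.Agent.U174.AO.Stm

/-!
# Project AO, package BF: corresponding elements satisfy the same formulas
-/

set_option autoImplicit false

namespace Pool.Agent.U511.AO.BF

open IsLocalRing Filter Pool.Agent.U174.AK Pool.Agent.U174.AO

/-- The positions are symmetric. -/
theorem Pos.symm {N : Type} [Field N] {V : ValuationSubring N} {P1 P2 : Set N} {F : Type} [Field F]
    {OF : ValuationSubring F} {s : OF.ValueGroupˣ →* Fˣ} {i j : VEmb OF V}
    (h : Pos V P1 P2 OF s i j) : Pos V P2 P1 OF s j i :=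
  ⟨h.cnt, h.sec, h.purj, h.puri, fun γ => (h.val γ).symm, fun r => (h.res r).symm,
    fun x => (h.sgn x).symm⟩

theorem aeval_comp {F N : Type} [Field F] [Field N] (f : F →+* N) {n : ℕ}
    (p : MvPolynomial (Fin n) ℤ) (x : Fin n → F) :
    MvPolynomial.aeval (fun k => f (x k)) p = f (MvPolynomial.aeval x p) := by
  have h := MvPolynomial.map_aeval x f p
  rw [h]
  rw [MvPolynomial.aeval_def, MvPolynomial.coe_eval₂Hom]
  congr 1
  exact Subsingleton.elim _ _

/-- One direction of the existential quantifier. -/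
theorem ex_dir (hstep : S_STEP) {N : Type} [Field N] {V : ValuationSubring N} (hB : Big V) (hE : Euc V)
    {P1 P2 : Set N} (h1 : Cone P1) (h2 : Cone P2) {n : ℕ} (φ : Fm Unit (n + 1))
    (ih : ∀ (F : Type) [Field F] (OF : ValuationSubring F)
      (s : OF.ValueGroupˣ →* Fˣ) (i j : VEmb OF V), Pos V P1 P2 OF s i j → ∀ x : Fin (n + 1) → F,
      (φ.Holds (fun _ => P1) (fun k => i.f (x k)) ↔ φ.Holds (fun _ => P2) (fun k => j.f (x k))))
    {F : Type} [Field F] {OF : ValuationSubring F} {s : OF.ValueGroupˣ →* Fˣ} {i j : VEmb OF V}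
    (hP : Pos V P1 P2 OF s i j) (x : Fin n → F)
    (hx : ∃ y : N, φ.Holds (fun _ => P1) (Fin.cons y (fun k => i.f (x k)))) :
    ∃ y : N, φ.Holds (fun _ => P2) (Fin.cons y (fun k => j.f (x k))) := by
  obtain ⟨a, ha⟩ := hx
  obtain ⟨F', _, O', s', ι, i', j', hP', hi, hj, z, hz⟩ :=
    hstep N V hB hE P1 P2 h1 h2 F OF s i j hP a
  refine ⟨j'.f z, ?_⟩
  have key := ih F' O' s' i' j' hP' (Fin.cons z (fun k => ι (x k)))
  have e1 : (fun k => i'.f ((Fin.cons z (fun k => ι (x k)) : Fin (n + 1) → F') k)) =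
      (Fin.cons a (fun k => i.f (x k)) : Fin (n + 1) → N) := by
    funext k
    refine Fin.cases ?_ (fun k => ?_) k
    · simpa using hz
    · simpa using hi (x k)
  have e2 : (fun k => j'.f ((Fin.cons z (fun k => ι (x k)) : Fin (n + 1) → F') k)) =
      (Fin.cons (j'.f z) (fun k => j.f (x k)) : Fin (n + 1) → N) := by
    funext k
    refine Fin.cases ?_ (fun k => ?_) k
    · simp
    · simpa using hj (x k)
  rw [e1, e2] at key
  exact key.1 ha

/-- **BF**. -/
theorem t_BF : S_STEP → S_BF := by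
  intro hstep N _ V hB hE P1 P2 h1 h2 n φ
  suffices H : (∀ (F : Type) [Field F] (OF : ValuationSubring F)
      (s : OF.ValueGroupˣ →* Fˣ) (i j : VEmb OF V), Pos V P1 P2 OF s i j → ∀ x : Fin n → F,
      (φ.Holds (fun _ => P1) (fun k => i.f (x k)) ↔
        φ.Holds (fun _ => P2) (fun k => j.f (x k)))) from H
  induction φ with
  | zero p =>
    intro F _ OF s i j hP x
    simp only [Fm.Holds]
    rw [aeval_comp, aeval_comp, map_eq_zero i.f, map_eq_zero j.f]
  | pred _ p =>
    intro F _ OF s i j hP x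
    simp only [Fm.Holds]
    rw [aeval_comp, aeval_comp]
    exact hP.sgn _
  | not φ ih =>
    intro F _ OF s i j hP x
    simp only [Fm.Holds]
    exact not_congr (ih F OF s i j hP x)
  | and φ ψ ihφ ihψ =>
    intro F _ OF s i j hP x
    simp only [Fm.Holds]
    exact and_congr (ihφ F OF s i j hP x) (ihψ F OF s i j hP x)
  | ex φ ih =>
    intro F _ OF s i j hP x
    simp only [Fm.Holds]
    constructor
    · exact ex_dir hstep hB hE h1 h2 φ ih hP x
    · refine ex_dir hstep hB hE h2 h1 φ ?_ (Pos.symm hP) x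
      intro F _ OF s i j hP x
      exact (ih F OF s j i (Pos.symm hP) x).symm

end Pool.Agent.U511.AO.BF
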